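import Mathlib

/-!
# Two dimensional step functions and dominated convergence
-/

namespace Pool.Agent.H90.Star

open Finset MeasureTheory Filter Topology

/-- the index of the cell of `x` -/
noncomputable def cl (x0 x1 : ℝ) (N : ℕ) (x : ℝ) : ℕ := ⌊(x - x0) * N / (x1 - x0)⌋₊

theorem cl_meas (x0 x1 : ℝ) (N : ℕ) : Measurable (cl x0 x1 N) := by
  unfold cl
  exact Nat.measurable_floor.comp (by fun_prop)

theorem cl_spec {x0 x1 : ℝ} (h : x0 < x1) {N : ℕ} (hN : 0 < N) {x : ℝ}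
    (hx : x ∈ Set.Ico x0 x1) : cl x0 x1 N x < N ∧
      x0 + (cl x0 x1 N x : ℝ) * ((x1 - x0) / N) ≤ x ∧
      x < x0 + ((cl x0 x1 N x : ℝ) + 1) * ((x1 - x0) / N) := by
  have hN' : (0 : ℝ) < N := by exact_mod_cast hN
  have h1 : 0 < x1 - x0 := by linarith
  have h0 : 0 ≤ (x - x0) * N / (x1 - x0) :=
    div_nonneg (mul_nonneg (by linarith [hx.1]) hN'.le) h1.le
  have f1 := Nat.floor_le h0
  have f2 := Nat.lt_floor_add_one ((x - x0) * N / (x1 - x0))
  have e : ∀ t : ℝ, t * ((x1 - x0) / N) = t / (N / (x1 - x0)) := by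
    intro t
    field_simp
  refine ⟨?_, ?_, ?_⟩
  · unfold cl
    rw [Nat.floor_lt h0, div_lt_iff₀ h1]
    nlinarith [hx.2]
  · have : (cl x0 x1 N x : ℝ) * (x1 - x0) ≤ (x - x0) * N := by
      unfold cl
      rwa [le_div_iff₀ h1] at f1
    have h3 : (cl x0 x1 N x : ℝ) * ((x1 - x0) / N) ≤ x - x0 := by
      rw [mul_div_assoc', div_le_iff₀ hN']
      exact this
    linarith
  · have : (x - x0) * N < ((cl x0 x1 N x : ℝ) + 1) * (x1 - x0) := by
      unfold cl
      rwa [div_lt_iff₀ h1] at f2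
    have h3 : x - x0 < ((cl x0 x1 N x : ℝ) + 1) * ((x1 - x0) / N) := by
      rw [mul_div_assoc', lt_div_iff₀ hN']
      exact this
    linarith

theorem cl_eq {x0 x1 : ℝ} (h : x0 < x1) {N : ℕ} (hN : 0 < N) {x : ℝ} (k : ℕ)
    (h1 : x0 + (k : ℝ) * ((x1 - x0) / N) ≤ x) (h2 : x < x0 + ((k : ℝ) + 1) * ((x1 - x0) / N)) :
    cl x0 x1 N x = k := by
  have hN' : (0 : ℝ) < N := by exact_mod_cast hN
  have h3 : 0 < x1 - x0 := by linarith
  have a1 : (k : ℝ) * ((x1 - x0) / N) ≤ x - x0 := by linarith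
  have a2 : x - x0 < ((k : ℝ) + 1) * ((x1 - x0) / N) := by linarith
  rw [mul_div_assoc', div_le_iff₀ hN'] at a1
  rw [mul_div_assoc', lt_div_iff₀ hN'] at a2
  unfold cl
  rw [Nat.floor_eq_iff (div_nonneg (le_trans (by positivity) a1) h3.le)]
  constructor
  · rw [le_div_iff₀ h3]
    exact a1
  · rw [div_lt_iff₀ h3]
    exact a2

theorem step1 {x0 x1 : ℝ} (h : x0 < x1) {N : ℕ} (hN : 0 < N) (ψ : ℕ → ℝ) :
    ∫ x in Set.Ico x0 x1, ψ (cl x0 x1 N x) = (x1 - x0) / N * ∑ i ∈ range N, ψ i := by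
  have hN' : (0 : ℝ) < N := by exact_mod_cast hN
  have h3 : 0 < x1 - x0 := by linarith
  have hq : 0 < (x1 - x0) / N := by positivity
  set a : ℕ → ℝ := fun k => x0 + (k : ℝ) * ((x1 - x0) / N) with ha
  have hpc : ∀ k < N, (∫ x in (a k)..(a (k + 1)), ψ (cl x0 x1 N x)) = (x1 - x0) / N * ψ k ∧
      IntervalIntegrable (fun x => ψ (cl x0 x1 N x)) volume (a k) (a (k + 1)) := by
    intro k hk
    have hle : a k ≤ a (k + 1) := by
      simp only [ha]
      push_cast
      nlinarith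
    have hco : ∀ x ∈ Set.Ico (a k) (a (k + 1)), ψ (cl x0 x1 N x) = ψ k := by
      intro x hx
      rw [cl_eq h hN k hx.1 (by have := hx.2; simp only [ha] at this; push_cast at this; exact this)]
    constructor
    · rw [intervalIntegral.integral_of_le hle, ← integral_Ico_eq_integral_Ioc,
        setIntegral_congr_fun measurableSet_Ico hco, setIntegral_const, measureReal_def,
        Real.volume_Ico, ENNReal.toReal_ofReal (by linarith)]
      simp only [ha, smul_eq_mul]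
      push_cast
      ring
    · rw [intervalIntegrable_iff_integrableOn_Ico_of_le hle]
      exact (integrableOn_const (by simp)).congr_fun (fun x hx => (hco x hx).symm) measurableSet_Ico
  have hs := intervalIntegral.sum_integral_adjacent_intervals (μ := volume)
    (f := fun x => ψ (cl x0 x1 N x)) (a := a) (n := N) (fun k hk => (hpc k hk).2)
  have e0 : a 0 = x0 := by simp [ha]
  have eN : a N = x1 := by
    simp only [ha]
    field_simp
    ring
  rw [e0, eN, intervalIntegral.integral_of_le h.le, ← integral_Ico_eq_integral_Ioc] at hs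
  rw [← hs, mul_sum]
  exact sum_congr rfl fun k hk => (hpc k (mem_range.1 hk)).1

theorem step2 {x0 x1 y0 y1 : ℝ} (hx : x0 < x1) (hy : y0 < y1) {N : ℕ} (hN : 0 < N)
    (Ψ : ℕ → ℕ → ℝ) (C : ℝ) (hC : ∀ i j, i < N → j < N → |Ψ i j| ≤ C) :
    ∫ p in Set.Ico x0 x1 ×ˢ Set.Ico y0 y1, Ψ (cl x0 x1 N p.1) (cl y0 y1 N p.2) =
      (x1 - x0) / N * ((y1 - y0) / N) * ∑ i ∈ range N, ∑ j ∈ range N, Ψ i j := by
  have hm : Measurable fun p : ℝ × ℝ => Ψ (cl x0 x1 N p.1) (cl y0 y1 N p.2) := by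
    have : Measurable fun q : ℕ × ℕ => Ψ q.1 q.2 := measurable_of_countable _
    exact this.comp (((cl_meas x0 x1 N).comp measurable_fst).prodMk
      ((cl_meas y0 y1 N).comp measurable_snd))
  have hint : IntegrableOn (fun p : ℝ × ℝ => Ψ (cl x0 x1 N p.1) (cl y0 y1 N p.2))
      (Set.Ico x0 x1 ×ˢ Set.Ico y0 y1) (volume.prod volume) := by
    refine Measure.integrableOn_of_bounded (M := C) ?_ hm.aestronglyMeasurable ?_
    · rw [Measure.prod_prod]
      simp [ENNReal.mul_eq_top]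
    · rw [ae_restrict_iff' (measurableSet_Ico.prod measurableSet_Ico)]
      refine Eventually.of_forall fun p hp => ?_
      exact hC _ _ (cl_spec hx hN hp.1).1 (cl_spec hy hN hp.2).1
  rw [Measure.volume_eq_prod, setIntegral_prod _ hint]
  simp only
  have e1 : ∀ x, ∫ y in Set.Ico y0 y1, Ψ (cl x0 x1 N x) (cl y0 y1 N y) =
      (y1 - y0) / N * ∑ j ∈ range N, Ψ (cl x0 x1 N x) j := fun x =>
    step1 hy hN (Ψ (cl x0 x1 N x))
  simp only [e1]
  rw [step1 hx hN fun i => (y1 - y0) / N * ∑ j ∈ range N, Ψ i j, ← mul_sum]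
  ring

theorem riem2 {x0 x1 y0 y1 : ℝ} (hx : x0 < x1) (hy : y0 < y1) (Φ : ℕ → ℕ → ℕ → ℝ) (C : ℝ)
    (hC : ∀ N i j, i < N → j < N → |Φ N i j| ≤ C) (φ : ℝ × ℝ → ℝ)
    (hlim : ∀ᵐ p ∂(volume.restrict (Set.Ico x0 x1 ×ˢ Set.Ico y0 y1)),
      Tendsto (fun N => Φ N (cl x0 x1 N p.1) (cl y0 y1 N p.2)) atTop (𝓝 (φ p))) :
    Tendsto (fun N : ℕ => (x1 - x0) / N * ((y1 - y0) / N) *
      ∑ i ∈ range N, ∑ j ∈ range N, Φ N i j) atTop
      (𝓝 (∫ p in Set.Ico x0 x1 ×ˢ Set.Ico y0 y1, φ p)) := by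
  have hfin : IsFiniteMeasure (volume.restrict (Set.Ico x0 x1 ×ˢ Set.Ico y0 y1)) := by
    constructor
    rw [Measure.restrict_apply_univ, Measure.volume_eq_prod, Measure.prod_prod]
    simp [ENNReal.mul_lt_top]
  have hT : Tendsto (fun N : ℕ => ∫ p in Set.Ico x0 x1 ×ˢ Set.Ico y0 y1,
      Φ N (cl x0 x1 N p.1) (cl y0 y1 N p.2)) atTop
      (𝓝 (∫ p in Set.Ico x0 x1 ×ˢ Set.Ico y0 y1, φ p)) := by
    have hev : ∀ᶠ N : ℕ in atTop, 0 < N := eventually_gt_atTop 0
    refine tendsto_integral_filter_of_dominated_convergence (fun _ => C) ?_ ?_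
      (integrable_const C) hlim
    · refine Eventually.of_forall fun N => ?_
      have : Measurable fun q : ℕ × ℕ => Φ N q.1 q.2 := measurable_of_countable _
      exact (this.comp (((cl_meas x0 x1 N).comp measurable_fst).prodMk
        ((cl_meas y0 y1 N).comp measurable_snd))).aestronglyMeasurable
    · filter_upwards [hev] with N hN
      rw [ae_restrict_iff' (measurableSet_Ico.prod measurableSet_Ico)]
      refine Eventually.of_forall fun p hp => ?_
      exact hC N _ _ (cl_spec hx hN hp.1).1 (cl_spec hy hN hp.2).1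
  refine hT.congr' ?_
  filter_upwards [eventually_gt_atTop 0] with N hN
  exact step2 hx hy hN (Φ N) C (hC N)

end Pool.Agent.H90.Star
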