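import Pool.Agent.H90.Star.Sum

/-!
# The discrete STAR inequality: cell sums
-/

namespace Pool.Agent.H90.Star

open Finset

/-- the cell sum, `a b c d` are the values at the corners 00, 10, 01, 11 -/
noncomputable def Jc (a b c d : ℝ) : ℝ := a - min a b - min a c + min (min a b) (min c d)

theorem Jc_abs (a b c d : ℝ) : |Jc a b c d| ≤ |a - b - c + d| := by
  unfold Jc
  rw [abs_le]
  rcases abs_cases (a - b - c + d) with h | h <;> rw [h.1] <;> simp only [min_def] <;>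
    split_ifs <;> constructor <;> linarith

theorem Jc_dec (a b c d : ℝ) (h1 : b ≤ a) (h2 : d ≤ c) (h3 : c ≤ a) (h4 : d ≤ b) :
    Jc a b c d = a - b - c + d := by
  unfold Jc
  rw [min_eq_right h1, min_eq_right h3, min_eq_right h2, min_eq_right h4]

theorem Jc_x (a b c d : ℝ) (h1 : a ≤ b) (h2 : c ≤ d) : Jc a b c d = 0 := by
  unfold Jc
  rw [min_eq_left h1, min_eq_left h2]
  ring

theorem Jc_y (a b c d : ℝ) (h1 : a ≤ c) (h2 : b ≤ d) : Jc a b c d = 0 := by
  unfold Jc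
  rw [min_eq_left h1, min_eq_left (min_le_min h1 h2)]
  ring

theorem sumIcc (a : ℕ) (F : ℤ → ℝ) :
    ∑ x ∈ Icc (0 : ℤ) ((a : ℤ) - 1), F x = ∑ i ∈ range a, F (i : ℤ) := by
  symm
  refine sum_bij (fun (i : ℕ) _ => (i : ℤ)) ?_ ?_ ?_ ?_
  · intro i hi
    rw [mem_range] at hi
    rw [mem_Icc]
    omega
  · intro i _ j _ h
    exact_mod_cast h
  · intro x hx
    rw [mem_Icc] at hx
    exact ⟨x.toNat, by rw [mem_range]; omega, by omega⟩
  · intro i _
    rfl

theorem sumIcc2 (a b : ℕ) (F : ℤ × ℤ → ℝ) :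
    ∑ p ∈ Icc (0 : ℤ) ((a : ℤ) - 1) ×ˢ Icc (0 : ℤ) ((b : ℤ) - 1), F p =
      ∑ i ∈ range a, ∑ j ∈ range b, F ((i : ℤ), (j : ℤ)) := by
  rw [sum_product, sumIcc a fun x => ∑ y ∈ Icc (0 : ℤ) ((b : ℤ) - 1), F (x, y)]
  exact sum_congr rfl fun i _ => sumIcc b _

theorem Sg_eq (m n : ℕ) (G : ℕ → ℕ → ℝ) (g : ℤ × ℤ → ℝ)
    (hG : ∀ i j : ℕ, g ((i : ℤ), (j : ℤ)) = G i j) :
    Sg m n g = (∑ i ∈ range m, ∑ j ∈ range n, Jc (G i j) (G (i + 1) j) (G i (j + 1))
        (G (i + 1) (j + 1))) +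
      (∑ j ∈ range n, (G m j - min (G m j) (G m (j + 1)))) +
      (∑ i ∈ range m, (G i n - min (G i n) (G (i + 1) n))) + G m n := by
  have hG1 : ∀ i j : ℕ, g (rt ((i : ℤ), (j : ℤ))) = G (i + 1) j := by
    intro i j
    rw [← hG]
    congr 1
  have hG2 : ∀ i j : ℕ, g (up ((i : ℤ), (j : ℤ))) = G i (j + 1) := by
    intro i j
    rw [← hG]
    congr 1
  have hG3 : ∀ i j : ℕ, g (rt (up ((i : ℤ), (j : ℤ)))) = G (i + 1) (j + 1) := by
    intro i j
    rw [← hG]
    congr 1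
  have e0 : ∑ p ∈ Rc m n, g p = ∑ i ∈ range (m + 1), ∑ j ∈ range (n + 1), G i j := by
    have := sumIcc2 (m + 1) (n + 1) g
    push_cast at this
    simp only [add_sub_cancel_right] at this
    unfold Rc
    rw [this]
    exact sum_congr rfl fun i _ => sum_congr rfl fun j _ => hG i j
  have e1 : ∑ p ∈ Icc (0 : ℤ) (m - 1) ×ˢ Icc (0 : ℤ) n, min (g p) (g (rt p)) =
      ∑ i ∈ range m, ∑ j ∈ range (n + 1), min (G i j) (G (i + 1) j) := by
    have := sumIcc2 m (n + 1) fun p => min (g p) (g (rt p))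
    push_cast at this
    simp only [add_sub_cancel_right] at this
    rw [this]
    exact sum_congr rfl fun i _ => sum_congr rfl fun j _ => by rw [hG, hG1]
  have e2 : ∑ p ∈ Icc (0 : ℤ) m ×ˢ Icc (0 : ℤ) (n - 1), min (g p) (g (up p)) =
      ∑ i ∈ range (m + 1), ∑ j ∈ range n, min (G i j) (G i (j + 1)) := by
    have := sumIcc2 (m + 1) n fun p => min (g p) (g (up p))
    push_cast at this
    simp only [add_sub_cancel_right] at this
    rw [this]
    exact sum_congr rfl fun i _ => sum_congr rfl fun j _ => by rw [hG, hG2]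
  have e3 : ∑ p ∈ Icc (0 : ℤ) (m - 1) ×ˢ Icc (0 : ℤ) (n - 1),
      min (min (g p) (g (rt p))) (min (g (up p)) (g (rt (up p)))) =
      ∑ i ∈ range m, ∑ j ∈ range n, min (min (G i j) (G (i + 1) j))
        (min (G i (j + 1)) (G (i + 1) (j + 1))) := by
    have := sumIcc2 m n fun p => min (min (g p) (g (rt p))) (min (g (up p)) (g (rt (up p))))
    rw [this]
    exact sum_congr rfl fun i _ => sum_congr rfl fun j _ => by rw [hG, hG1, hG2, hG3]
  unfold Sg
  rw [e0, e1, e2, e3]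
  simp only [Jc, sum_sub_distrib, sum_add_distrib, sum_range_succ]
  ring

end Pool.Agent.H90.Star
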