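import Mathlib

/-!
# The discrete STAR inequality: Euler characteristic of planar grid sets
-/

namespace Pool.Agent.H90.Star

open Finset

/-- right neighbour -/
def rt (p : ℤ × ℤ) : ℤ × ℤ := (p.1 + 1, p.2)

/-- upper neighbour -/
def up (p : ℤ × ℤ) : ℤ × ℤ := (p.1, p.2 + 1)

/-- left neighbour -/
def lf (p : ℤ × ℤ) : ℤ × ℤ := (p.1 - 1, p.2)

/-- lower neighbour -/
def dn (p : ℤ × ℤ) : ℤ × ℤ := (p.1, p.2 - 1)

/-- the Euler characteristic of the full subcomplex spanned by `U` -/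
def chi (U : Finset (ℤ × ℤ)) : ℤ :=
  (U.card : ℤ) - ((U.filter fun p => rt p ∈ U).card : ℤ) - ((U.filter fun p => up p ∈ U).card : ℤ) +
    ((U.filter fun p => rt p ∈ U ∧ up p ∈ U ∧ rt (up p) ∈ U).card : ℤ)

/-- `φ` is constant along the edges of `U` -/
def LC (U : Finset (ℤ × ℤ)) (φ : ℤ × ℤ → ℕ) : Prop :=
  (∀ p ∈ U, rt p ∈ U → φ p = φ (rt p)) ∧ (∀ p ∈ U, up p ∈ U → φ p = φ (up p))

/-- the Euler characteristic bounds the number of colours of every locally constant colouring -/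
def PP (U : Finset (ℤ × ℤ)) : Prop :=
  ∀ φ : ℤ × ℤ → ℕ, LC U φ → ((U.image φ).card : ℤ) ≤ chi U

theorem card_filter_rt (U : Finset (ℤ × ℤ)) (v : ℤ × ℤ) (hv : v ∈ U) :
    (((U.erase v).filter fun p => rt p ∈ U.erase v).card : ℤ) =
      ((U.filter fun p => rt p ∈ U).card : ℤ) - (if rt v ∈ U then 1 else 0) -
        (if lf v ∈ U then 1 else 0) := by
  have e : (U.erase v).filter (fun p => rt p ∈ U.erase v) =
      ((U.filter fun p => rt p ∈ U).erase v).erase (lf v) := by
    ext p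
    simp only [mem_filter, mem_erase]
    have h1 : rt p = v ↔ p = lf v := by
      constructor
      · rintro rfl
        simp [rt, lf]
      · rintro rfl
        simp [rt, lf]
    constructor
    · rintro ⟨⟨a, b⟩, c, d⟩
      exact ⟨fun h => c (h1.2 h), a, b, d⟩
    · rintro ⟨a, b, c, d⟩
      exact ⟨⟨b, c⟩, fun h => a (h1.1 h), d⟩
  rw [e]
  have hlv : lf v ≠ v := by
    intro h
    have := congrArg Prod.fst h
    simp [lf] at this
  have hrl : rt (lf v) = v := by simp [rt, lf]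
  have m1 : v ∈ (U.filter fun p => rt p ∈ U) ↔ rt v ∈ U := by simp [hv]
  have m2 : lf v ∈ ((U.filter fun p => rt p ∈ U).erase v) ↔ lf v ∈ U := by
    simp [hlv, hrl, hv]
  rw [card_erase_eq_ite, card_erase_eq_ite]
  have pos1 : rt v ∈ U → 0 < (U.filter fun p => rt p ∈ U).card :=
    fun h => card_pos.2 ⟨v, m1.2 h⟩
  have pos2 : lf v ∈ U → 0 < ((U.filter fun p => rt p ∈ U).erase v).card :=
    fun h => card_pos.2 ⟨lf v, m2.2 h⟩
  rw [card_erase_eq_ite] at pos2
  simp only [m1, m2] at pos2 ⊢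
  split_ifs at pos2 ⊢ <;> simp_all

theorem card_filter_up (U : Finset (ℤ × ℤ)) (v : ℤ × ℤ) (hv : v ∈ U) :
    (((U.erase v).filter fun p => up p ∈ U.erase v).card : ℤ) =
      ((U.filter fun p => up p ∈ U).card : ℤ) - (if up v ∈ U then 1 else 0) -
        (if dn v ∈ U then 1 else 0) := by
  have e : (U.erase v).filter (fun p => up p ∈ U.erase v) =
      ((U.filter fun p => up p ∈ U).erase v).erase (dn v) := by
    ext p
    simp only [mem_filter, mem_erase]
    have h1 : up p = v ↔ p = dn v := by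
      constructor
      · rintro rfl
        simp [up, dn]
      · rintro rfl
        simp [up, dn]
    constructor
    · rintro ⟨⟨a, b⟩, c, d⟩
      exact ⟨fun h => c (h1.2 h), a, b, d⟩
    · rintro ⟨a, b, c, d⟩
      exact ⟨⟨b, c⟩, fun h => a (h1.1 h), d⟩
  rw [e]
  have hlv : dn v ≠ v := by
    intro h
    have := congrArg Prod.snd h
    simp [dn] at this
  have hrl : up (dn v) = v := by simp [up, dn]
  have m1 : v ∈ (U.filter fun p => up p ∈ U) ↔ up v ∈ U := by simp [hv]
  have m2 : dn v ∈ ((U.filter fun p => up p ∈ U).erase v) ↔ dn v ∈ U := by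
    simp [hlv, hrl, hv]
  rw [card_erase_eq_ite, card_erase_eq_ite]
  have pos1 : up v ∈ U → 0 < (U.filter fun p => up p ∈ U).card :=
    fun h => card_pos.2 ⟨v, m1.2 h⟩
  have pos2 : dn v ∈ U → 0 < ((U.filter fun p => up p ∈ U).erase v).card :=
    fun h => card_pos.2 ⟨dn v, m2.2 h⟩
  rw [card_erase_eq_ite] at pos2
  simp only [m1, m2] at pos2 ⊢
  split_ifs at pos2 ⊢ <;> simp_all

theorem card_erase_ind {α : Type*} [DecidableEq α] (S : Finset α) (a : α) :
    ((S.erase a).card : ℤ) = (S.card : ℤ) - (if a ∈ S then 1 else 0) := by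
  rw [card_erase_eq_ite]
  split_ifs with h
  · have := card_pos.2 ⟨a, h⟩
    push_cast [Nat.cast_sub (show 1 ≤ S.card from this)]
    ring
  · ring

theorem card_filter_face (U : Finset (ℤ × ℤ)) (v : ℤ × ℤ) (hv : v ∈ U) :
    (((U.erase v).filter fun p => rt p ∈ U.erase v ∧ up p ∈ U.erase v ∧
        rt (up p) ∈ U.erase v).card : ℤ) =
      ((U.filter fun p => rt p ∈ U ∧ up p ∈ U ∧ rt (up p) ∈ U).card : ℤ) -
        (if rt v ∈ U ∧ up v ∈ U ∧ rt (up v) ∈ U then 1 else 0) -
        (if lf v ∈ U ∧ up v ∈ U ∧ lf (up v) ∈ U then 1 else 0) -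
        (if rt v ∈ U ∧ dn v ∈ U ∧ rt (dn v) ∈ U then 1 else 0) -
        (if lf v ∈ U ∧ dn v ∈ U ∧ lf (dn v) ∈ U then 1 else 0) := by
  set S := U.filter fun p => rt p ∈ U ∧ up p ∈ U ∧ rt (up p) ∈ U with hS
  have e : (U.erase v).filter (fun p => rt p ∈ U.erase v ∧ up p ∈ U.erase v ∧
        rt (up p) ∈ U.erase v) =
      (((S.erase v).erase (lf v)).erase (dn v)).erase (lf (dn v)) := by
    ext p
    simp only [hS, mem_filter, mem_erase]
    have h1 : rt p = v ↔ p = lf v := by
      constructor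
      · rintro rfl
        simp [rt, lf]
      · rintro rfl
        simp [rt, lf]
    have h2 : up p = v ↔ p = dn v := by
      constructor
      · rintro rfl
        simp [up, dn]
      · rintro rfl
        simp [up, dn]
    have h3 : rt (up p) = v ↔ p = lf (dn v) := by
      constructor
      · rintro rfl
        simp [rt, up, lf, dn]
      · rintro rfl
        simp [rt, up, lf, dn]
    rw [← not_iff_not] at h1 h2 h3
    have h1' : (rt p ≠ v) ↔ (p ≠ lf v) := h1
    have h2' : (up p ≠ v) ↔ (p ≠ dn v) := h2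
    have h3' : (rt (up p) ≠ v) ↔ (p ≠ lf (dn v)) := h3
    rw [h1', h2', h3']
    tauto
  rw [e, card_erase_ind, card_erase_ind, card_erase_ind, card_erase_ind]
  have n1 : lf v ≠ v := by
    intro h
    have := congrArg Prod.fst h
    simp [lf] at this
  have n2 : dn v ≠ v := by
    intro h
    have := congrArg Prod.snd h
    simp [dn] at this
  have n3 : dn v ≠ lf v := by
    intro h
    have := congrArg Prod.snd h
    simp [dn, lf] at this
  have n4 : lf (dn v) ≠ v := by
    intro h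
    have := congrArg Prod.snd h
    simp [dn, lf] at this
  have n5 : lf (dn v) ≠ lf v := by
    intro h
    have := congrArg Prod.snd h
    simp [dn, lf] at this
  have n6 : lf (dn v) ≠ dn v := by
    intro h
    have := congrArg Prod.fst h
    simp [dn, lf] at this
  have r1 : rt (lf v) = v := by simp [rt, lf]
  have r2 : rt (up (lf v)) = up v := by simp [rt, up, lf]
  have r3 : up (lf v) = lf (up v) := by simp [up, lf]
  have r4 : up (dn v) = v := by simp [up, dn]
  have r5 : rt (lf (dn v)) = dn v := by simp [rt, lf, dn]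
  have r6 : up (lf (dn v)) = lf v := by simp [up, lf, dn]
  have q1 : v ∈ S ↔ rt v ∈ U ∧ up v ∈ U ∧ rt (up v) ∈ U := by simp [hS, hv]
  have q2 : lf v ∈ S.erase v ↔ lf v ∈ U ∧ up v ∈ U ∧ lf (up v) ∈ U := by
    simp only [hS, mem_erase, mem_filter, r1, r2]
    rw [r3]
    tauto
  have q3 : dn v ∈ (S.erase v).erase (lf v) ↔ rt v ∈ U ∧ dn v ∈ U ∧ rt (dn v) ∈ U := by
    simp only [hS, mem_erase, mem_filter, r4]
    tauto
  have q4 : lf (dn v) ∈ ((S.erase v).erase (lf v)).erase (dn v) ↔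
      lf v ∈ U ∧ dn v ∈ U ∧ lf (dn v) ∈ U := by
    simp only [hS, mem_erase, mem_filter, r5, r6, r1]
    tauto
  simp only [q1, q2, q3, q4]

theorem chi_erase (U : Finset (ℤ × ℤ)) (v : ℤ × ℤ) (hv : v ∈ U) :
    chi (U.erase v) = chi U - 1 +
      ((if rt v ∈ U then 1 else 0) + (if lf v ∈ U then 1 else 0) +
       (if up v ∈ U then 1 else 0) + (if dn v ∈ U then 1 else 0)) -
      ((if rt v ∈ U ∧ up v ∈ U ∧ rt (up v) ∈ U then 1 else 0) +
       (if lf v ∈ U ∧ up v ∈ U ∧ lf (up v) ∈ U then 1 else 0) +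
       (if rt v ∈ U ∧ dn v ∈ U ∧ rt (dn v) ∈ U then 1 else 0) +
       (if lf v ∈ U ∧ dn v ∈ U ∧ lf (dn v) ∈ U then 1 else 0)) := by
  unfold chi
  rw [card_filter_rt U v hv, card_filter_up U v hv, card_filter_face U v hv, card_erase_ind,
    if_pos hv]
  ring

theorem path3 (P Q R f g : Prop) [Decidable P] [Decidable Q] [Decidable R] [Decidable f]
    [Decidable g] (a b c : ℕ) (hf : f → P ∧ Q ∧ a = b) (hg : g → Q ∧ R ∧ b = c) :
    ((((if P then {a} else ∅) ∪ (if Q then {b} else ∅)) ∪ (if R then {c} else ∅) :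
      Finset ℕ).card : ℤ) ≤ (if P then 1 else 0) + (if Q then 1 else 0) + (if R then 1 else 0) -
        (if f then 1 else 0) - (if g then 1 else 0) := by
  have h1 : (((if P then {a} else ∅) ∪ (if Q then {b} else ∅) : Finset ℕ).card : ℤ) ≤
      (if P then 1 else 0) + (if Q then 1 else 0) - (if f then 1 else 0) := by
    by_cases hf' : f
    · obtain ⟨hP, hQ, rfl⟩ := hf hf'
      simp [hP, hQ, hf']
    · have := card_union_le (if P then ({a} : Finset ℕ) else ∅) (if Q then {b} else ∅)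
      rw [if_neg hf']
      have e1 : (if P then ({a} : Finset ℕ) else ∅).card = if P then 1 else 0 := by
        split_ifs <;> simp
      have e2 : (if Q then ({b} : Finset ℕ) else ∅).card = if Q then 1 else 0 := by
        split_ifs <;> simp
      rw [e1, e2] at this
      have h3 : (((if P then {a} else ∅) ∪ (if Q then {b} else ∅) : Finset ℕ).card : ℤ) ≤
        (((if P then 1 else 0) + (if Q then 1 else 0) : ℕ) : ℤ) := by exact_mod_cast this
      push_cast at h3
      linarith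
  by_cases hg' : g
  · obtain ⟨hQ, hR, rfl⟩ := hg hg'
    have e : ((if P then {a} else ∅) ∪ (if Q then {b} else ∅)) ∪ (if R then {b} else ∅) =
        ((if P then {a} else ∅) ∪ (if Q then {b} else ∅) : Finset ℕ) := by
      simp [hQ, hR]
    rw [e, if_pos hR, if_pos hg']
    linarith
  · have := card_union_le ((if P then ({a} : Finset ℕ) else ∅) ∪ (if Q then {b} else ∅))
      (if R then {c} else ∅)
    have e2 : (if R then ({c} : Finset ℕ) else ∅).card = if R then 1 else 0 := by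
      split_ifs <;> simp
    rw [e2] at this
    rw [if_neg hg']
    have h3 : ((((if P then {a} else ∅) ∪ (if Q then {b} else ∅)) ∪ (if R then {c} else ∅) :
        Finset ℕ).card : ℤ) ≤ ((((if P then {a} else ∅) ∪ (if Q then {b} else ∅) :
        Finset ℕ).card + (if R then 1 else 0) : ℕ) : ℤ) := by exact_mod_cast this
    push_cast at h3
    linarith

/-- colours of the neighbours -/
def nbc (U : Finset (ℤ × ℤ)) (φ : ℤ × ℤ → ℕ) (v : ℤ × ℤ) : Finset ℕ :=
  (((if rt v ∈ U then {φ (rt v)} else ∅) ∪ (if up v ∈ U then {φ (up v)} else ∅)) ∪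
    (if lf v ∈ U then {φ (lf v)} else ∅)) ∪ (if dn v ∈ U then {φ (dn v)} else ∅)

theorem nbc_card (U : Finset (ℤ × ℤ)) (φ : ℤ × ℤ → ℕ) (v : ℤ × ℤ)
    (hφ : LC (U.erase v) φ)
    (hmiss : rt v ∉ U ∨ lf v ∉ U ∨ up v ∉ U ∨ dn v ∉ U) :
    ((nbc U φ v).card : ℤ) ≤
      ((if rt v ∈ U then 1 else 0) + (if lf v ∈ U then 1 else 0) +
       (if up v ∈ U then 1 else 0) + (if dn v ∈ U then 1 else 0)) -
      ((if rt v ∈ U ∧ up v ∈ U ∧ rt (up v) ∈ U then 1 else 0) +
       (if lf v ∈ U ∧ up v ∈ U ∧ lf (up v) ∈ U then 1 else 0) +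
       (if rt v ∈ U ∧ dn v ∈ U ∧ rt (dn v) ∈ U then 1 else 0) +
       (if lf v ∈ U ∧ dn v ∈ U ∧ lf (dn v) ∈ U then 1 else 0)) := by
  have d1 : rt v ≠ v := fun h => by simpa [rt] using congrArg Prod.fst h
  have d2 : lf v ≠ v := fun h => by simpa [lf] using congrArg Prod.fst h
  have d3 : up v ≠ v := fun h => by simpa [up] using congrArg Prod.snd h
  have d4 : dn v ≠ v := fun h => by simpa [dn] using congrArg Prod.snd h
  have d5 : rt (up v) ≠ v := fun h => by simpa [rt, up] using congrArg Prod.fst h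
  have d6 : lf (up v) ≠ v := fun h => by simpa [lf, up] using congrArg Prod.fst h
  have d7 : rt (dn v) ≠ v := fun h => by simpa [rt, dn] using congrArg Prod.fst h
  have d8 : lf (dn v) ≠ v := fun h => by simpa [lf, dn] using congrArg Prod.fst h
  have c1 : up (rt v) = rt (up v) := by simp [up, rt]
  have c2 : up (lf v) = lf (up v) := by simp [up, lf]
  have c3 : rt (lf (up v)) = up v := by simp [up, rt, lf]
  have c4 : up (rt (dn v)) = rt v := by simp [up, rt, dn]
  have c5 : up (lf (dn v)) = lf v := by simp [up, lf, dn]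
  have c6 : rt (lf (dn v)) = dn v := by simp [rt, lf, dn]
  have f1 : (rt v ∈ U ∧ up v ∈ U ∧ rt (up v) ∈ U) → φ (rt v) = φ (up v) := by
    rintro ⟨a, b, c⟩
    have h1 := hφ.2 (rt v) (mem_erase.2 ⟨d1, a⟩) (by rw [c1]; exact mem_erase.2 ⟨d5, c⟩)
    have h2 := hφ.1 (up v) (mem_erase.2 ⟨d3, b⟩) (mem_erase.2 ⟨d5, c⟩)
    rw [h1, h2, c1]
  have f2 : (lf v ∈ U ∧ up v ∈ U ∧ lf (up v) ∈ U) → φ (lf v) = φ (up v) := by
    rintro ⟨a, b, c⟩
    have h1 := hφ.2 (lf v) (mem_erase.2 ⟨d2, a⟩) (by rw [c2]; exact mem_erase.2 ⟨d6, c⟩)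
    have h2 := hφ.1 (lf (up v)) (mem_erase.2 ⟨d6, c⟩) (by rw [c3]; exact mem_erase.2 ⟨d3, b⟩)
    rw [h1, c2, h2, c3]
  have f3 : (rt v ∈ U ∧ dn v ∈ U ∧ rt (dn v) ∈ U) → φ (rt v) = φ (dn v) := by
    rintro ⟨a, b, c⟩
    have h1 := hφ.2 (rt (dn v)) (mem_erase.2 ⟨d7, c⟩) (by rw [c4]; exact mem_erase.2 ⟨d1, a⟩)
    have h2 := hφ.1 (dn v) (mem_erase.2 ⟨d4, b⟩) (mem_erase.2 ⟨d7, c⟩)
    rw [h2, h1, c4]
  have f4 : (lf v ∈ U ∧ dn v ∈ U ∧ lf (dn v) ∈ U) → φ (lf v) = φ (dn v) := by
    rintro ⟨a, b, c⟩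
    have h1 := hφ.2 (lf (dn v)) (mem_erase.2 ⟨d8, c⟩) (by rw [c5]; exact mem_erase.2 ⟨d2, a⟩)
    have h2 := hφ.1 (lf (dn v)) (mem_erase.2 ⟨d8, c⟩) (by rw [c6]; exact mem_erase.2 ⟨d4, b⟩)
    rw [← c6, ← h2, h1, c5]
  rcases hmiss with h | h | h | h
  · have := path3 (up v ∈ U) (lf v ∈ U) (dn v ∈ U)
      (lf v ∈ U ∧ up v ∈ U ∧ lf (up v) ∈ U) (lf v ∈ U ∧ dn v ∈ U ∧ lf (dn v) ∈ U)
      (φ (up v)) (φ (lf v)) (φ (dn v)) (fun g => ⟨g.2.1, g.1, (f2 g).symm⟩)
      (fun g => ⟨g.1, g.2.1, f4 g⟩)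
    have e : nbc U φ v = ((if up v ∈ U then {φ (up v)} else ∅) ∪
        (if lf v ∈ U then {φ (lf v)} else ∅)) ∪ (if dn v ∈ U then {φ (dn v)} else ∅) := by
      unfold nbc
      rw [if_neg h, empty_union]
    rw [e]
    simp only [h, false_and, if_false]
    linarith
  · have := path3 (up v ∈ U) (rt v ∈ U) (dn v ∈ U)
      (rt v ∈ U ∧ up v ∈ U ∧ rt (up v) ∈ U) (rt v ∈ U ∧ dn v ∈ U ∧ rt (dn v) ∈ U)
      (φ (up v)) (φ (rt v)) (φ (dn v)) (fun g => ⟨g.2.1, g.1, (f1 g).symm⟩)
      (fun g => ⟨g.1, g.2.1, f3 g⟩)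
    have e : nbc U φ v = ((if up v ∈ U then {φ (up v)} else ∅) ∪
        (if rt v ∈ U then {φ (rt v)} else ∅)) ∪ (if dn v ∈ U then {φ (dn v)} else ∅) := by
      unfold nbc
      rw [if_neg h, union_empty, union_comm (if rt v ∈ U then {φ (rt v)} else ∅)]
    rw [e]
    simp only [h, false_and, if_false]
    linarith
  · have := path3 (rt v ∈ U) (dn v ∈ U) (lf v ∈ U)
      (rt v ∈ U ∧ dn v ∈ U ∧ rt (dn v) ∈ U) (lf v ∈ U ∧ dn v ∈ U ∧ lf (dn v) ∈ U)
      (φ (rt v)) (φ (dn v)) (φ (lf v)) (fun g => ⟨g.1, g.2.1, f3 g⟩)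
      (fun g => ⟨g.2.1, g.1, (f4 g).symm⟩)
    have e : nbc U φ v = ((if rt v ∈ U then {φ (rt v)} else ∅) ∪
        (if dn v ∈ U then {φ (dn v)} else ∅)) ∪ (if lf v ∈ U then {φ (lf v)} else ∅) := by
      unfold nbc
      rw [if_neg h, union_empty, union_assoc, union_comm (if lf v ∈ U then {φ (lf v)} else ∅),
        ← union_assoc]
    rw [e]
    simp only [h, false_and, and_false, if_false]
    linarith
  · have := path3 (rt v ∈ U) (up v ∈ U) (lf v ∈ U)
      (rt v ∈ U ∧ up v ∈ U ∧ rt (up v) ∈ U) (lf v ∈ U ∧ up v ∈ U ∧ lf (up v) ∈ U)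
      (φ (rt v)) (φ (up v)) (φ (lf v)) (fun g => ⟨g.1, g.2.1, f1 g⟩)
      (fun g => ⟨g.2.1, g.1, (f2 g).symm⟩)
    have e : nbc U φ v = ((if rt v ∈ U then {φ (rt v)} else ∅) ∪
        (if up v ∈ U then {φ (up v)} else ∅)) ∪ (if lf v ∈ U then {φ (lf v)} else ∅) := by
      unfold nbc
      rw [if_neg h, union_empty]
    rw [e]
    simp only [h, false_and, and_false, if_false]
    linarith

theorem mem_nbc (U : Finset (ℤ × ℤ)) (φ : ℤ × ℤ → ℕ) (v : ℤ × ℤ) :
    (rt v ∈ U → φ (rt v) ∈ nbc U φ v) ∧ (lf v ∈ U → φ (lf v) ∈ nbc U φ v) ∧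
    (up v ∈ U → φ (up v) ∈ nbc U φ v) ∧ (dn v ∈ U → φ (dn v) ∈ nbc U φ v) := by
  unfold nbc
  refine ⟨fun h => ?_, fun h => ?_, fun h => ?_, fun h => ?_⟩ <;> simp [h]

theorem nbc_sub (U : Finset (ℤ × ℤ)) (φ : ℤ × ℤ → ℕ) (v : ℤ × ℤ) :
    nbc U φ v ⊆ (U.erase v).image φ := by
  have d1 : rt v ≠ v := fun h => by simpa [rt] using congrArg Prod.fst h
  have d2 : lf v ≠ v := fun h => by simpa [lf] using congrArg Prod.fst h
  have d3 : up v ≠ v := fun h => by simpa [up] using congrArg Prod.snd h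
  have d4 : dn v ≠ v := fun h => by simpa [dn] using congrArg Prod.snd h
  unfold nbc
  refine union_subset (union_subset (union_subset ?_ ?_) ?_) ?_
  · split_ifs with h
    · rw [singleton_subset_iff]
      exact mem_image_of_mem _ (mem_erase.2 ⟨d1, h⟩)
    · exact empty_subset _
  · split_ifs with h
    · rw [singleton_subset_iff]
      exact mem_image_of_mem _ (mem_erase.2 ⟨d3, h⟩)
    · exact empty_subset _
  · split_ifs with h
    · rw [singleton_subset_iff]
      exact mem_image_of_mem _ (mem_erase.2 ⟨d2, h⟩)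
    · exact empty_subset _
  · split_ifs with h
    · rw [singleton_subset_iff]
      exact mem_image_of_mem _ (mem_erase.2 ⟨d4, h⟩)
    · exact empty_subset _

theorem PP_erase (U : Finset (ℤ × ℤ)) (v : ℤ × ℤ) (hv : v ∈ U) (hP : PP U)
    (hmiss : rt v ∉ U ∨ lf v ∉ U ∨ up v ∉ U ∨ dn v ∉ U) : PP (U.erase v) := by
  intro φ hφ
  have hc := nbc_card U φ v hφ hmiss
  obtain ⟨k1, k2, k3, k4⟩ := mem_nbc U φ v
  have hchi := chi_erase U v hv
  set T := nbc U φ v with hT
  have e1 : rt (lf v) = v := by simp [rt, lf]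
  have e2 : up (dn v) = v := by simp [up, dn]
  have g1 : ∀ p, rt p = v → p = lf v := by
    rintro p rfl
    simp [rt, lf]
  have g2 : ∀ p, up p = v → p = dn v := by
    rintro p rfl
    simp [up, dn]
  rcases T.eq_empty_or_nonempty with hTe | ⟨c0, hc0⟩
  · have n1 : rt v ∉ U := fun h => by simpa [hTe] using k1 h
    have n2 : lf v ∉ U := fun h => by simpa [hTe] using k2 h
    have n3 : up v ∉ U := fun h => by simpa [hTe] using k3 h
    have n4 : dn v ∉ U := fun h => by simpa [hTe] using k4 h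
    set c : ℕ := ((U.erase v).image φ).sup id + 1 with hcdef
    have hcn : c ∉ (U.erase v).image φ := by
      intro h
      have := le_sup (f := id) h
      simp only [id] at this
      omega
    set ψ : ℤ × ℤ → ℕ := Function.update φ v c with hψ
    have hψv : ψ v = c := by simp [hψ]
    have hψn : ∀ p, p ≠ v → ψ p = φ p := fun p hp => by simp [hψ, hp]
    have hL : LC U ψ := by
      constructor
      · intro p hp hr
        have a : p ≠ v := by
          rintro rfl
          exact n1 hr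
        have b : rt p ≠ v := fun h => n2 (by rw [← g1 p h]; exact hp)
        rw [hψn p a, hψn _ b]
        exact hφ.1 p (mem_erase.2 ⟨a, hp⟩) (mem_erase.2 ⟨b, hr⟩)
      · intro p hp hr
        have a : p ≠ v := by
          rintro rfl
          exact n3 hr
        have b : up p ≠ v := fun h => n4 (by rw [← g2 p h]; exact hp)
        rw [hψn p a, hψn _ b]
        exact hφ.2 p (mem_erase.2 ⟨a, hp⟩) (mem_erase.2 ⟨b, hr⟩)
    have h := hP ψ hL
    have hsub : insert c ((U.erase v).image φ) ⊆ U.image ψ := by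
      intro x hx
      rw [mem_insert] at hx
      rcases hx with rfl | hx
      · exact mem_image.2 ⟨v, hv, hψv⟩
      · obtain ⟨p, hp, rfl⟩ := mem_image.1 hx
        exact mem_image.2 ⟨p, (mem_erase.1 hp).2, hψn p (mem_erase.1 hp).1⟩
    have h2 := card_le_card hsub
    rw [card_insert_of_notMem hcn] at h2
    have h3 : (((U.erase v).image φ).card : ℤ) + 1 ≤ ((U.image ψ).card : ℤ) := by
      exact_mod_cast h2
    rw [hchi]
    simp only [n1, n2, n3, n4, false_and, if_false]
    linarith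
  · set ψ : ℤ × ℤ → ℕ := fun p => if p = v then c0 else if φ p ∈ T then c0 else φ p with hψ
    have hψv : ψ v = c0 := by simp [hψ]
    have hψT : ∀ p, p ≠ v → φ p ∈ T → ψ p = c0 := fun p hp h => by simp [hψ, hp, h]
    have hL : LC U ψ := by
      constructor
      · intro p hp hr
        by_cases a : p = v
        · subst a
          have d : rt p ≠ p := fun h => by simpa [rt] using congrArg Prod.fst h
          rw [hψv, hψT _ d (k1 hr)]
        · by_cases b : rt p = v
          · rw [b, hψv]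
            have := g1 p b
            exact hψT p a (by rw [this]; exact k2 (by rw [← this]; exact hp))
          · have h1 := hφ.1 p (mem_erase.2 ⟨a, hp⟩) (mem_erase.2 ⟨b, hr⟩)
            simp only [hψ, if_neg a, if_neg b, h1]
      · intro p hp hr
        by_cases a : p = v
        · subst a
          have d : up p ≠ p := fun h => by simpa [up] using congrArg Prod.snd h
          rw [hψv, hψT _ d (k3 hr)]
        · by_cases b : up p = v
          · rw [b, hψv]
            have := g2 p b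
            exact hψT p a (by rw [this]; exact k4 (by rw [← this]; exact hp))
          · have h1 := hφ.2 p (mem_erase.2 ⟨a, hp⟩) (mem_erase.2 ⟨b, hr⟩)
            simp only [hψ, if_neg a, if_neg b, h1]
    have h := hP ψ hL
    have hsub : insert c0 ((U.erase v).image φ \ T) ⊆ U.image ψ := by
      intro x hx
      rw [mem_insert] at hx
      rcases hx with rfl | hx
      · exact mem_image.2 ⟨v, hv, hψv⟩
      · rw [mem_sdiff] at hx
        obtain ⟨hx, hxT⟩ := hx
        obtain ⟨p, hp, rfl⟩ := mem_image.1 hx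
        refine mem_image.2 ⟨p, (mem_erase.1 hp).2, ?_⟩
        simp [hψ, (mem_erase.1 hp).1, hxT]
    have h2 := card_le_card hsub
    have hn : c0 ∉ (U.erase v).image φ \ T := by
      intro h
      exact (mem_sdiff.1 h).2 hc0
    rw [card_insert_of_notMem hn] at h2
    have h4 := card_sdiff_add_card_eq_card (nbc_sub U φ v)
    have h3 : (((U.erase v).image φ).card : ℤ) + 1 ≤ ((U.image ψ).card : ℤ) + (T.card : ℤ) := by
      rw [← hT] at h4
      have : ((U.erase v).image φ).card + 1 ≤ (U.image ψ).card + T.card := by omega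
      exact_mod_cast this
    rw [hchi]
    linarith

end Pool.Agent.H90.Star
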