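import Pool.Agent.H90.Star.Disc

/-!
# The discrete STAR inequality: superlevel sets of functions without interior local minima
-/

namespace Pool.Agent.H90.Star

open Finset

/-- the rectangle `[0,m] x [0,n]` -/
noncomputable def Rc (m n : ℕ) : Finset (ℤ × ℤ) := Icc (0 : ℤ) m ×ˢ Icc (0 : ℤ) n

theorem mem_Rc {m n : ℕ} {p : ℤ × ℤ} :
    p ∈ Rc m n ↔ (0 ≤ p.1 ∧ p.1 ≤ m) ∧ (0 ≤ p.2 ∧ p.2 ≤ n) := by
  simp [Rc, mem_product]

theorem chi_Rc (m n : ℕ) : chi (Rc m n) = 1 := by
  have e1 : (Rc m n).filter (fun p => rt p ∈ Rc m n) = Icc (0 : ℤ) (m - 1) ×ˢ Icc (0 : ℤ) n := by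
    ext p
    simp only [mem_filter, mem_Rc, mem_product, mem_Icc, rt]
    constructor
    · rintro ⟨⟨⟨a, b⟩, c, d⟩, ⟨e, f⟩, g, h⟩
      exact ⟨⟨a, by omega⟩, c, d⟩
    · rintro ⟨⟨a, b⟩, c, d⟩
      exact ⟨⟨⟨a, by omega⟩, c, d⟩, ⟨by omega, by omega⟩, c, d⟩
  have e2 : (Rc m n).filter (fun p => up p ∈ Rc m n) = Icc (0 : ℤ) m ×ˢ Icc (0 : ℤ) (n - 1) := by
    ext p
    simp only [mem_filter, mem_Rc, mem_product, mem_Icc, up]
    constructor
    · rintro ⟨⟨⟨a, b⟩, c, d⟩, ⟨e, f⟩, g, h⟩
      exact ⟨⟨a, b⟩, c, by omega⟩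
    · rintro ⟨⟨a, b⟩, c, d⟩
      exact ⟨⟨⟨a, b⟩, c, by omega⟩, ⟨a, b⟩, by omega, by omega⟩
  have e3 : (Rc m n).filter (fun p => rt p ∈ Rc m n ∧ up p ∈ Rc m n ∧ rt (up p) ∈ Rc m n) =
      Icc (0 : ℤ) (m - 1) ×ˢ Icc (0 : ℤ) (n - 1) := by
    ext p
    simp only [mem_filter, mem_Rc, mem_product, mem_Icc, up, rt]
    constructor
    · rintro ⟨⟨⟨a, b⟩, c, d⟩, ⟨⟨e, f⟩, g, h⟩, ⟨⟨e', f'⟩, g', h'⟩, _⟩
      exact ⟨⟨a, by omega⟩, c, by omega⟩
    · rintro ⟨⟨a, b⟩, c, d⟩
      exact ⟨⟨⟨a, by omega⟩, c, by omega⟩, ⟨⟨by omega, by omega⟩, c, by omega⟩,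
        ⟨⟨a, by omega⟩, by omega, by omega⟩, ⟨by omega, by omega⟩, by omega, by omega⟩
  have c0 : (Rc m n).card = (m + 1) * (n + 1) := by
    unfold Rc
    rw [card_product, Int.card_Icc, Int.card_Icc]
    congr 1 <;> omega
  have c1 : (Icc (0 : ℤ) (m - 1) ×ˢ Icc (0 : ℤ) n).card = m * (n + 1) := by
    rw [card_product, Int.card_Icc, Int.card_Icc]
    congr 1 <;> omega
  have c2 : (Icc (0 : ℤ) m ×ˢ Icc (0 : ℤ) (n - 1)).card = (m + 1) * n := by
    rw [card_product, Int.card_Icc, Int.card_Icc]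
    congr 1 <;> omega
  have c3 : (Icc (0 : ℤ) (m - 1) ×ˢ Icc (0 : ℤ) (n - 1)).card = m * n := by
    rw [card_product, Int.card_Icc, Int.card_Icc]
    congr 1 <;> omega
  unfold chi
  rw [e1, e2, e3, c0, c1, c2, c3]
  push_cast
  ring

theorem PP_Rc (m n : ℕ) : PP (Rc m n) := by
  intro φ hφ
  have h1 : ∀ a : ℕ, a ≤ m → φ ((a : ℤ), 0) = φ (0, 0) := by
    intro a
    induction a with
    | zero => intro _; rfl
    | succ a ih =>
      intro ha
      rw [← ih (by omega)]
      have := hφ.1 ((a : ℤ), 0) (by rw [mem_Rc]; simp; omega)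
        (by rw [mem_Rc]; simp [rt]; omega)
      rw [this]
      simp [rt]
  have h2 : ∀ a b : ℕ, a ≤ m → b ≤ n → φ ((a : ℤ), (b : ℤ)) = φ (0, 0) := by
    intro a b ha
    induction b with
    | zero => intro _; exact h1 a ha
    | succ b ih =>
      intro hb
      rw [← ih (by omega)]
      have := hφ.2 ((a : ℤ), (b : ℤ)) (by rw [mem_Rc]; simp; omega)
        (by rw [mem_Rc]; simp [up]; omega)
      rw [this]
      simp [up]
  rw [chi_Rc]
  have h3 : (Rc m n).image φ ⊆ {φ (0, 0)} := by
    intro x hx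
    obtain ⟨p, hp, rfl⟩ := mem_image.1 hx
    rw [mem_Rc] at hp
    have := h2 p.1.toNat p.2.toNat (by omega) (by omega)
    rw [Int.toNat_of_nonneg hp.1.1, Int.toNat_of_nonneg hp.2.1] at this
    rw [mem_singleton]
    exact this
  have := card_le_card h3
  rw [card_singleton] at this
  exact_mod_cast this

/-- the interior points of the rectangle have a smaller neighbour -/
def NoMin (m n : ℕ) (g : ℤ × ℤ → ℝ) : Prop :=
  ∀ p : ℤ × ℤ, 0 < p.1 → p.1 < m → 0 < p.2 → p.2 < n →
    g (rt p) < g p ∨ g (lf p) < g p ∨ g (up p) < g p ∨ g (dn p) < g p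

theorem PP_upper (m n : ℕ) (g : ℤ × ℤ → ℝ) (hg : NoMin m n g) :
    ∀ k : ℕ, ∀ U : Finset (ℤ × ℤ), U ⊆ Rc m n → (∀ p ∈ Rc m n, p ∉ U → ∀ q ∈ U, g p ≤ g q) →
      (Rc m n \ U).card = k → PP U := by
  intro k
  induction k with
  | zero =>
    intro U hU _ hk
    have : Rc m n ⊆ U := by
      rw [card_eq_zero, sdiff_eq_empty_iff_subset] at hk
      exact hk
    rw [subset_antisymm hU this]
    exact PP_Rc m n
  | succ k ih =>
    intro U hU hup hk
    have hne : (Rc m n \ U).Nonempty := by
      rw [← card_pos]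
      omega
    obtain ⟨v, hv, hmax⟩ := exists_max_image (Rc m n \ U) g hne
    rw [mem_sdiff] at hv
    have hU' : insert v U ⊆ Rc m n := insert_subset hv.1 hU
    have hup' : ∀ p ∈ Rc m n, p ∉ insert v U → ∀ q ∈ insert v U, g p ≤ g q := by
      intro p hp hpn q hq
      rw [mem_insert, not_or] at hpn
      rw [mem_insert] at hq
      rcases hq with rfl | hq
      · exact hmax p (mem_sdiff.2 ⟨hp, hpn.2⟩)
      · exact hup p hp hpn.2 q hq
    have hk' : (Rc m n \ insert v U).card = k := by
      have e : Rc m n \ insert v U = (Rc m n \ U).erase v := by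
        ext p
        simp only [mem_sdiff, mem_insert, mem_erase, not_or]
        tauto
      rw [e, card_erase_of_mem (mem_sdiff.2 hv), hk]
      rfl
    have hP := ih (insert v U) hU' hup' hk'
    have hmiss : rt v ∉ insert v U ∨ lf v ∉ insert v U ∨ up v ∉ insert v U ∨
        dn v ∉ insert v U := by
      have d1 : rt v ≠ v := fun h => by simpa [rt] using congrArg Prod.fst h
      have d2 : lf v ≠ v := fun h => by simpa [lf] using congrArg Prod.fst h
      have d3 : up v ≠ v := fun h => by simpa [up] using congrArg Prod.snd h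
      have d4 : dn v ≠ v := fun h => by simpa [dn] using congrArg Prod.snd h
      have hvR := mem_Rc.1 hv.1
      by_cases a1 : v.1 = m
      · left
        intro h
        have := mem_Rc.1 (hU' h)
        simp only [rt] at this
        omega
      by_cases a2 : v.1 = 0
      · right; left
        intro h
        have := mem_Rc.1 (hU' h)
        simp only [lf] at this
        omega
      by_cases a3 : v.2 = n
      · right; right; left
        intro h
        have := mem_Rc.1 (hU' h)
        simp only [up] at this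
        omega
      by_cases a4 : v.2 = 0
      · right; right; right
        intro h
        have := mem_Rc.1 (hU' h)
        simp only [dn] at this
        omega
      rcases hg v (by omega) (by omega) (by omega) (by omega) with h | h | h | h
      · left
        intro hm
        rw [mem_insert] at hm
        rcases hm with hm | hm
        · exact d1 hm
        · exact absurd (hup v hv.1 hv.2 _ hm) (not_le.2 h)
      · right; left
        intro hm
        rw [mem_insert] at hm
        rcases hm with hm | hm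
        · exact d2 hm
        · exact absurd (hup v hv.1 hv.2 _ hm) (not_le.2 h)
      · right; right; left
        intro hm
        rw [mem_insert] at hm
        rcases hm with hm | hm
        · exact d3 hm
        · exact absurd (hup v hv.1 hv.2 _ hm) (not_le.2 h)
      · right; right; right
        intro hm
        rw [mem_insert] at hm
        rcases hm with hm | hm
        · exact d4 hm
        · exact absurd (hup v hv.1 hv.2 _ hm) (not_le.2 h)
    have := PP_erase (insert v U) v (mem_insert_self v U) hP hmiss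
    rwa [erase_insert hv.2] at this

theorem PP_level (m n : ℕ) (g : ℤ × ℤ → ℝ) (hg : NoMin m n g) (l : ℝ) :
    PP ((Rc m n).filter fun p => l < g p) := by
  refine PP_upper m n g hg _ _ (filter_subset _ _) ?_ rfl
  intro p hp hpn q hq
  rw [mem_filter] at hpn hq
  have h1 : ¬ l < g p := fun h => hpn ⟨hp, h⟩
  linarith [hq.2]

end Pool.Agent.H90.Star
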