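import Pool.Agent.H90.Star.Level

/-!
# The discrete STAR inequality: layer cake
-/

namespace Pool.Agent.H90.Star

open Finset

theorem fil1 (m n : ℕ) (g : ℤ × ℤ → ℝ) (l : ℝ) :
    (((Rc m n).filter fun p => l < g p).filter
        fun p => rt p ∈ (Rc m n).filter fun p => l < g p) =
      (Icc (0 : ℤ) (m - 1) ×ˢ Icc (0 : ℤ) n).filter fun p => l < min (g p) (g (rt p)) := by
  ext p
  simp only [mem_filter, mem_Rc, mem_product, mem_Icc, lt_min_iff]
  simp only [rt]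
  constructor
  · rintro ⟨⟨⟨⟨a, b⟩, c, d⟩, e⟩, ⟨⟨f, g⟩, h, i⟩, j⟩
    exact ⟨⟨⟨a, by omega⟩, c, d⟩, e, j⟩
  · rintro ⟨⟨⟨a, b⟩, c, d⟩, e, j⟩
    exact ⟨⟨⟨⟨a, by omega⟩, c, d⟩, e⟩, ⟨⟨by omega, by omega⟩, c, d⟩, j⟩

theorem fil2 (m n : ℕ) (g : ℤ × ℤ → ℝ) (l : ℝ) :
    (((Rc m n).filter fun p => l < g p).filter
        fun p => up p ∈ (Rc m n).filter fun p => l < g p) =
      (Icc (0 : ℤ) m ×ˢ Icc (0 : ℤ) (n - 1)).filter fun p => l < min (g p) (g (up p)) := by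
  ext p
  simp only [mem_filter, mem_Rc, mem_product, mem_Icc, lt_min_iff]
  simp only [up]
  constructor
  · rintro ⟨⟨⟨⟨a, b⟩, c, d⟩, e⟩, ⟨⟨f, g⟩, h, i⟩, j⟩
    exact ⟨⟨⟨a, b⟩, c, by omega⟩, e, j⟩
  · rintro ⟨⟨⟨a, b⟩, c, d⟩, e, j⟩
    exact ⟨⟨⟨⟨a, b⟩, c, by omega⟩, e⟩, ⟨⟨a, b⟩, by omega, by omega⟩, j⟩

theorem fil3 (m n : ℕ) (g : ℤ × ℤ → ℝ) (l : ℝ) :
    (((Rc m n).filter fun p => l < g p).filter
        fun p => rt p ∈ ((Rc m n).filter fun p => l < g p) ∧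
          up p ∈ ((Rc m n).filter fun p => l < g p) ∧
          rt (up p) ∈ ((Rc m n).filter fun p => l < g p)) =
      (Icc (0 : ℤ) (m - 1) ×ˢ Icc (0 : ℤ) (n - 1)).filter fun p =>
        l < min (min (g p) (g (rt p))) (min (g (up p)) (g (rt (up p)))) := by
  ext p
  simp only [mem_filter, mem_Rc, mem_product, mem_Icc, lt_min_iff]
  simp only [up, rt]
  constructor
  · rintro ⟨⟨⟨⟨a, b⟩, c, d⟩, e⟩, ⟨⟨⟨f, g⟩, h, i⟩, j⟩, ⟨⟨⟨f', g'⟩, h', i'⟩, j'⟩, ⟨_, j''⟩⟩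
    exact ⟨⟨⟨a, by omega⟩, c, by omega⟩, ⟨e, j⟩, j', j''⟩
  · rintro ⟨⟨⟨a, b⟩, c, d⟩, ⟨e, j⟩, j', j''⟩
    exact ⟨⟨⟨⟨a, by omega⟩, c, by omega⟩, e⟩, ⟨⟨⟨by omega, by omega⟩, c, by omega⟩, j⟩,
      ⟨⟨⟨a, by omega⟩, by omega, by omega⟩, j'⟩, ⟨⟨by omega, by omega⟩, by omega, by omega⟩, j''⟩

/-- the indicator of `l < a` -/
noncomputable def ind (l a : ℝ) : ℝ := if l < a then 1 else 0

theorem chi_eq (m n : ℕ) (g : ℤ × ℤ → ℝ) (l : ℝ) :
    (chi ((Rc m n).filter fun p => l < g p) : ℝ) =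
      (∑ p ∈ Rc m n, ind l (g p)) -
      (∑ p ∈ Icc (0 : ℤ) (m - 1) ×ˢ Icc (0 : ℤ) n, ind l (min (g p) (g (rt p)))) -
      (∑ p ∈ Icc (0 : ℤ) m ×ˢ Icc (0 : ℤ) (n - 1), ind l (min (g p) (g (up p)))) +
      (∑ p ∈ Icc (0 : ℤ) (m - 1) ×ˢ Icc (0 : ℤ) (n - 1),
        ind l (min (min (g p) (g (rt p))) (min (g (up p)) (g (rt (up p)))))) := by
  unfold chi
  rw [fil1, fil2, fil3]
  unfold ind
  rw [sum_boole, sum_boole, sum_boole, sum_boole]
  push_cast
  rfl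

/-- the combinatorial sum -/
noncomputable def Sg (m n : ℕ) (g : ℤ × ℤ → ℝ) : ℝ :=
  (∑ p ∈ Rc m n, g p) -
  (∑ p ∈ Icc (0 : ℤ) (m - 1) ×ˢ Icc (0 : ℤ) n, min (g p) (g (rt p))) -
  (∑ p ∈ Icc (0 : ℤ) m ×ˢ Icc (0 : ℤ) (n - 1), min (g p) (g (up p))) +
  (∑ p ∈ Icc (0 : ℤ) (m - 1) ×ˢ Icc (0 : ℤ) (n - 1),
    min (min (g p) (g (rt p))) (min (g (up p)) (g (rt (up p)))))

theorem ind_integrable (a M : ℝ) :
    IntervalIntegrable (fun l => ind l a) MeasureTheory.volume 0 M := by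
  have h1 : (fun l => ind l a) = (Set.Iio a).indicator (fun _ => (1 : ℝ)) := by
    funext l
    unfold ind
    by_cases h : l < a
    · rw [if_pos h, Set.indicator_of_mem (show l ∈ Set.Iio a from h)]
    · rw [if_neg h, Set.indicator_of_notMem (show l ∉ Set.Iio a from h)]
  rw [h1]
  constructor
  · exact (MeasureTheory.integrable_const (1 : ℝ)).indicator measurableSet_Iio
  · exact (MeasureTheory.integrable_const (1 : ℝ)).indicator measurableSet_Iio

theorem ind_int (a M : ℝ) (h0 : 0 ≤ a) (hM : a ≤ M) : ∫ l in (0 : ℝ)..M, ind l a = a := by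
  have h1 : (fun l => ind l a) = (Set.Iio a).indicator (fun _ => (1 : ℝ)) := by
    funext l
    unfold ind
    by_cases h : l < a
    · rw [if_pos h, Set.indicator_of_mem (show l ∈ Set.Iio a from h)]
    · rw [if_neg h, Set.indicator_of_notMem (show l ∉ Set.Iio a from h)]
  rw [h1, intervalIntegral.integral_of_le (h0.trans hM),
    MeasureTheory.setIntegral_indicator measurableSet_Iio, MeasureTheory.setIntegral_const]
  have h2 : MeasureTheory.volume.real (Set.Ioc 0 M ∩ Set.Iio a) = a := by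
    have : MeasureTheory.volume (Set.Ioc 0 M ∩ Set.Iio a) = MeasureTheory.volume (Set.Ioo 0 a) := by
      congr 1
      ext x
      simp only [Set.mem_inter_iff, Set.mem_Ioc, Set.mem_Iio, Set.mem_Ioo]
      constructor
      · rintro ⟨⟨a1, a2⟩, a3⟩
        exact ⟨a1, a3⟩
      · rintro ⟨a1, a2⟩
        exact ⟨⟨a1, by linarith⟩, a2⟩
    rw [MeasureTheory.measureReal_def, this, Real.volume_Ioo, sub_zero, ENNReal.toReal_ofReal h0]
  rw [h2]
  simp

theorem ii_sum {ι : Type*} (s : Finset ι) (F : ι → ℝ → ℝ) (a b : ℝ)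
    (h : ∀ i ∈ s, IntervalIntegrable (F i) MeasureTheory.volume a b) :
    IntervalIntegrable (fun l => ∑ i ∈ s, F i l) MeasureTheory.volume a b := by
  have := IntervalIntegrable.sum s h
  have e : (∑ i ∈ s, F i) = fun l => ∑ i ∈ s, F i l := by
    funext l
    exact Finset.sum_apply l s F
  rwa [e] at this

theorem chi_int (m n : ℕ) (g : ℤ × ℤ → ℝ) (M : ℝ) (h0 : ∀ p ∈ Rc m n, 0 ≤ g p)
    (hM : ∀ p ∈ Rc m n, g p ≤ M) :
    (∫ l in (0 : ℝ)..M, (chi ((Rc m n).filter fun p => l < g p) : ℝ)) = Sg m n g ∧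
    IntervalIntegrable (fun l => (chi ((Rc m n).filter fun p => l < g p) : ℝ))
      MeasureTheory.volume 0 M := by
  have i1 : IntervalIntegrable (fun l => ∑ p ∈ Rc m n, ind l (g p)) MeasureTheory.volume 0 M :=
    ii_sum _ _ _ _ fun p _ => ind_integrable _ _
  have i2 : IntervalIntegrable (fun l => ∑ p ∈ Icc (0 : ℤ) (m - 1) ×ˢ Icc (0 : ℤ) n,
      ind l (min (g p) (g (rt p)))) MeasureTheory.volume 0 M :=
    ii_sum _ _ _ _ fun p _ => ind_integrable _ _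
  have i3 : IntervalIntegrable (fun l => ∑ p ∈ Icc (0 : ℤ) m ×ˢ Icc (0 : ℤ) (n - 1),
      ind l (min (g p) (g (up p)))) MeasureTheory.volume 0 M :=
    ii_sum _ _ _ _ fun p _ => ind_integrable _ _
  have i4 : IntervalIntegrable (fun l => ∑ p ∈ Icc (0 : ℤ) (m - 1) ×ˢ Icc (0 : ℤ) (n - 1),
      ind l (min (min (g p) (g (rt p))) (min (g (up p)) (g (rt (up p))))))
      MeasureTheory.volume 0 M :=
    ii_sum _ _ _ _ fun p _ => ind_integrable _ _
  simp only [chi_eq]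
  refine ⟨?_, ((i1.sub i2).sub i3).add i4⟩
  rw [intervalIntegral.integral_add ((i1.sub i2).sub i3) i4,
    intervalIntegral.integral_sub (i1.sub i2) i3, intervalIntegral.integral_sub i1 i2,
    intervalIntegral.integral_finsetSum (fun p _ => ind_integrable _ _),
    intervalIntegral.integral_finsetSum (fun p _ => ind_integrable _ _),
    intervalIntegral.integral_finsetSum (fun p _ => ind_integrable _ _),
    intervalIntegral.integral_finsetSum (fun p _ => ind_integrable _ _)]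
  unfold Sg
  have m1 : ∀ p ∈ Icc (0 : ℤ) (m - 1) ×ˢ Icc (0 : ℤ) n, p ∈ Rc m n ∧ rt p ∈ Rc m n := by
    intro p hp
    simp only [mem_product, mem_Icc] at hp
    simp only [mem_Rc, rt]
    omega
  have m2 : ∀ p ∈ Icc (0 : ℤ) m ×ˢ Icc (0 : ℤ) (n - 1), p ∈ Rc m n ∧ up p ∈ Rc m n := by
    intro p hp
    simp only [mem_product, mem_Icc] at hp
    simp only [mem_Rc, up]
    omega
  have m3 : ∀ p ∈ Icc (0 : ℤ) (m - 1) ×ˢ Icc (0 : ℤ) (n - 1),
      (p ∈ Rc m n ∧ rt p ∈ Rc m n) ∧ (up p ∈ Rc m n ∧ rt (up p) ∈ Rc m n) := by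
    intro p hp
    simp only [mem_product, mem_Icc] at hp
    simp only [mem_Rc, up, rt]
    omega
  congr 1
  · congr 1
    · congr 1
      · exact sum_congr rfl fun p hp => ind_int _ _ (h0 p hp) (hM p hp)
      · exact sum_congr rfl fun p hp => ind_int _ _
          (le_min (h0 _ (m1 p hp).1) (h0 _ (m1 p hp).2))
          ((min_le_left _ _).trans (hM _ (m1 p hp).1))
    · exact sum_congr rfl fun p hp => ind_int _ _
          (le_min (h0 _ (m2 p hp).1) (h0 _ (m2 p hp).2))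
          ((min_le_left _ _).trans (hM _ (m2 p hp).1))
  · exact sum_congr rfl fun p hp => ind_int _ _
      (le_min (le_min (h0 _ (m3 p hp).1.1) (h0 _ (m3 p hp).1.2))
        (le_min (h0 _ (m3 p hp).2.1) (h0 _ (m3 p hp).2.2)))
      (((min_le_left _ _).trans (min_le_left _ _)).trans (hM _ (m3 p hp).1.1))

open Classical in
/-- the colouring by the sets `B i`, `i ∈ s` -/
noncomputable def col (s : Finset ℕ) (B : ℕ → Set (ℤ × ℤ)) (p : ℤ × ℤ) : ℕ :=
  ∑ i ∈ s, if p ∈ B i then i + 1 else 0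

theorem chi_low (m n : ℕ) (g : ℤ × ℤ → ℝ) (hg : NoMin m n g) (s : Finset ℕ)
    (B : ℕ → Set (ℤ × ℤ)) (hB : ∀ i ∈ s, ∀ j ∈ s, i ≠ j → Disjoint (B i) (B j))
    (lo hi : ℕ → ℝ) (z : ℕ → ℤ × ℤ)
    (hz : ∀ i ∈ s, z i ∈ B i ∧ z i ∈ Rc m n ∧ hi i ≤ g (z i))
    (hx : ∀ i ∈ s, ∀ p ∈ Rc m n, rt p ∈ Rc m n → ¬ (p ∈ B i ↔ rt p ∈ B i) →
      g p ≤ lo i ∨ g (rt p) ≤ lo i)
    (hy : ∀ i ∈ s, ∀ p ∈ Rc m n, up p ∈ Rc m n → ¬ (p ∈ B i ↔ up p ∈ B i) →
      g p ≤ lo i ∨ g (up p) ≤ lo i)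
    (hlh : ∀ i ∈ s, lo i ≤ hi i)
    (t l : ℝ) (z0 : ℤ × ℤ) (hz0 : l < t → z0 ∈ Rc m n ∧ t ≤ g z0 ∧ ∀ i ∈ s, z0 ∉ B i) :
    ind l t + ∑ i ∈ s, (ind l (hi i) - ind l (lo i)) ≤
      (chi ((Rc m n).filter fun p => l < g p) : ℝ) := by
  classical
  set U := (Rc m n).filter fun p => l < g p with hU
  set sl := s.filter fun i => lo i ≤ l ∧ l < hi i with hsl
  have hmem : ∀ i, i ∈ sl ↔ i ∈ s ∧ lo i ≤ l ∧ l < hi i := fun i => by rw [hsl, mem_filter]
  have hLC : LC U (col sl B) := by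
    constructor
    · intro p hp hq
      rw [hU, mem_filter] at hp hq
      unfold col
      refine sum_congr rfl fun i hi' => ?_
      rw [hmem] at hi'
      have : p ∈ B i ↔ rt p ∈ B i := by
        by_contra hcon
        rcases hx i hi'.1 p hp.1 hq.1 hcon with h | h
        · linarith [hp.2, hi'.2.1]
        · linarith [hq.2, hi'.2.1]
      simp only [this]
    · intro p hp hq
      rw [hU, mem_filter] at hp hq
      unfold col
      refine sum_congr rfl fun i hi' => ?_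
      rw [hmem] at hi'
      have : p ∈ B i ↔ up p ∈ B i := by
        by_contra hcon
        rcases hy i hi'.1 p hp.1 hq.1 hcon with h | h
        · linarith [hp.2, hi'.2.1]
        · linarith [hq.2, hi'.2.1]
      simp only [this]
  have hPP := PP_level m n g hg l (col sl B) hLC
  rw [← hU] at hPP
  have hsub : (sl.image fun i => i + 1) ∪ (if l < t then {0} else ∅) ⊆ U.image (col sl B) := by
    intro c hc
    rw [mem_union] at hc
    rcases hc with hc | hc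
    · obtain ⟨i, hi', rfl⟩ := mem_image.1 hc
      have hi2 := (hmem i).1 hi'
      obtain ⟨a1, a2, a3⟩ := hz i hi2.1
      refine mem_image.2 ⟨z i, ?_, ?_⟩
      · rw [hU, mem_filter]
        exact ⟨a2, by linarith [hi2.2.2]⟩
      · unfold col
        rw [sum_eq_single i]
        · rw [if_pos a1]
        · intro j hj hji
          have hj2 := (hmem j).1 hj
          rw [if_neg]
          intro hzj
          exact Set.disjoint_left.1 (hB j hj2.1 i hi2.1 hji) hzj a1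
        · intro hcon
          exact absurd hi' hcon
    · split_ifs at hc with hlt
      · rw [mem_singleton] at hc
        subst hc
        obtain ⟨a1, a2, a3⟩ := hz0 hlt
        refine mem_image.2 ⟨z0, ?_, ?_⟩
        · rw [hU, mem_filter]
          exact ⟨a1, by linarith⟩
        · unfold col
          refine sum_eq_zero fun i hi' => ?_
          rw [if_neg (a3 i ((hmem i).1 hi').1)]
      · simp at hc
  have hcard := card_le_card hsub
  have hdis : Disjoint (sl.image fun i => i + 1) (if l < t then ({0} : Finset ℕ) else ∅) := by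
    split_ifs
    · rw [disjoint_singleton_right, mem_image]
      rintro ⟨a, _, h⟩
      omega
    · exact disjoint_empty_right _
  rw [card_union_of_disjoint hdis, card_image_of_injective _ (fun a b h => by simpa using h)] at hcard
  have e1 : ((if l < t then ({0} : Finset ℕ) else ∅).card : ℝ) = ind l t := by
    unfold ind
    split_ifs <;> simp
  have e2 : ∑ i ∈ s, (ind l (hi i) - ind l (lo i)) = (sl.card : ℝ) := by
    rw [hsl, ← sum_boole]
    refine sum_congr rfl fun i hi' => ?_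
    unfold ind
    have := hlh i hi'
    by_cases c1 : l < hi i
    · by_cases c2 : l < lo i
      · rw [if_pos c1, if_pos c2, if_neg (by intro h; linarith [h.1])]
        ring
      · rw [if_pos c1, if_neg c2, if_pos ⟨not_lt.1 c2, c1⟩]
        ring
    · rw [if_neg c1, if_neg (by intro h; linarith), if_neg (by intro h; exact c1 h.2)]
      ring
  rw [e2, ← e1]
  have h3 : ((sl.card + (if l < t then ({0} : Finset ℕ) else ∅).card : ℕ) : ℤ) ≤ chi U :=
    le_trans (by exact_mod_cast hcard) hPP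
  have h4 : (((sl.card + (if l < t then ({0} : Finset ℕ) else ∅).card : ℕ) : ℤ) : ℝ) ≤
    (chi U : ℝ) := by exact_mod_cast h3
  push_cast at h4
  linarith

theorem Sg_low (m n : ℕ) (g : ℤ × ℤ → ℝ) (hg : NoMin m n g) (s : Finset ℕ)
    (B : ℕ → Set (ℤ × ℤ)) (hB : ∀ i ∈ s, ∀ j ∈ s, i ≠ j → Disjoint (B i) (B j))
    (lo hi : ℕ → ℝ) (z : ℕ → ℤ × ℤ)
    (hz : ∀ i ∈ s, z i ∈ B i ∧ z i ∈ Rc m n ∧ hi i ≤ g (z i))
    (hx : ∀ i ∈ s, ∀ p ∈ Rc m n, rt p ∈ Rc m n → ¬ (p ∈ B i ↔ rt p ∈ B i) →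
      g p ≤ lo i ∨ g (rt p) ≤ lo i)
    (hy : ∀ i ∈ s, ∀ p ∈ Rc m n, up p ∈ Rc m n → ¬ (p ∈ B i ↔ up p ∈ B i) →
      g p ≤ lo i ∨ g (up p) ≤ lo i)
    (hlh : ∀ i ∈ s, 0 ≤ lo i ∧ lo i ≤ hi i)
    (t : ℝ) (ht : 0 ≤ t) (z0 : ℤ × ℤ)
    (hz0 : 0 < t → z0 ∈ Rc m n ∧ t ≤ g z0 ∧ ∀ i ∈ s, z0 ∉ B i)
    (h0 : ∀ p ∈ Rc m n, 0 ≤ g p) :
    t + ∑ i ∈ s, (hi i - lo i) ≤ Sg m n g := by
  obtain ⟨M, hM⟩ : ∃ M : ℝ, ∀ p ∈ Rc m n, g p ≤ M := by
    refine ⟨∑ p ∈ Rc m n, g p, fun p hp => ?_⟩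
    exact single_le_sum (f := g) h0 hp
  set M' := max (max M t) 0 with hM'
  have hMM : ∀ p ∈ Rc m n, g p ≤ M' := fun p hp =>
    (hM p hp).trans ((le_max_left _ _).trans (le_max_left _ _))
  obtain ⟨e1, e2⟩ := chi_int m n g M' h0 hMM
  rw [← e1]
  have i1 : IntervalIntegrable (fun l => ∑ i ∈ s, (ind l (hi i) - ind l (lo i)))
      MeasureTheory.volume 0 M' :=
    ii_sum _ _ _ _ fun p _ => (ind_integrable _ _).sub (ind_integrable _ _)
  have e3 : ∫ l in (0 : ℝ)..M', (ind l t + ∑ i ∈ s, (ind l (hi i) - ind l (lo i))) =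
      t + ∑ i ∈ s, (hi i - lo i) := by
    rw [intervalIntegral.integral_add (ind_integrable _ _) i1,
      intervalIntegral.integral_finsetSum
        (fun p _ => (ind_integrable _ _).sub (ind_integrable _ _)),
      ind_int t M' ht ((le_max_right _ _).trans (le_max_left _ _))]
    congr 1
    refine sum_congr rfl fun i hi' => ?_
    have hhi : hi i ≤ M' := (hz i hi').2.2.trans (hMM _ (hz i hi').2.1)
    have hl := hlh i hi'
    rw [intervalIntegral.integral_sub (ind_integrable _ _) (ind_integrable _ _),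
      ind_int _ _ (hl.1.trans hl.2) hhi, ind_int _ _ hl.1 (hl.2.trans hhi)]
  rw [← e3]
  refine intervalIntegral.integral_mono_on (le_max_right _ _) ((ind_integrable _ _).add i1) e2 ?_
  intro l hl
  refine chi_low m n g hg s B hB lo hi z hz hx hy (fun i hi' => (hlh i hi').2) t l z0 ?_
  intro hlt
  exact hz0 (lt_of_le_of_lt hl.1 hlt)

end Pool.Agent.H90.Star
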